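import Pool.Agent.Helper8.T1.GoodDefs

/-!
CM fields of degree eight: conditions on pairs of CM fields.
-/

namespace Pool.Agent.GPC

open NumberField

/-- The spaces of odd functions on `Hom(K, ℂ)` and on `Hom(L, ℂ)` have no isomorphic
`Aut(ℂ)`-stable subspaces of dimension at least two: if `W` is a stable space of pairs of odd
functions, in which each of the two functions vanishes only together with the other one, then
`dim W ≤ 1`. -/
def NoCommon (K L : Type) [Field K] [NumberField K] [Field L] [NumberField L] : Prop :=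
  ∀ W : Submodule ℚ (((K →+* ℂ) → ℚ) × ((L →+* ℂ) → ℚ)),
    (∀ w ∈ W, (∀ s, w.1 (ComplexEmbedding.conjugate s) = - w.1 s) ∧
      ∀ s, w.2 (ComplexEmbedding.conjugate s) = - w.2 s) →
    (∀ (τ : ℂ ≃+* ℂ), ∀ w ∈ W, ((fun s : K →+* ℂ => w.1 ((τ : ℂ →+* ℂ).comp s),
      fun s : L →+* ℂ => w.2 ((τ : ℂ →+* ℂ).comp s)) :
        ((K →+* ℂ) → ℚ) × ((L →+* ℂ) → ℚ)) ∈ W) →
    (∀ w ∈ W, w.1 = 0 ↔ w.2 = 0) → Module.finrank ℚ W ≤ 1

/-- The condition on two CM fields: both are abelian over `ℚ`, or one of them is quadratic, or they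
have no common constituents of dimension at least two, or both are good, and have different normal
closures in `ℂ` if they are not abelian. -/
def CMPair (K L : Type) [Field K] [NumberField K] [Field L] [NumberField L] : Prop :=
  (IsAbelianGalois ℚ K ∧ IsAbelianGalois ℚ L) ∨
    (Module.finrank ℚ K = 2 ∨ Module.finrank ℚ L = 2) ∨ NoCommon K L ∨
    (IsGoodCM K ∧ IsGoodCM L ∧ (¬ IsAbelianGalois ℚ K → ¬ IsAbelianGalois ℚ L →
      IntermediateField.normalClosure ℚ K ℂ ≠ IntermediateField.normalClosure ℚ L ℂ))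

end Pool.Agent.GPC
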