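import Mathlib

/-!
Rational symmetric idempotents of size four with constant diagonal.
-/

set_option autoImplicit false

namespace Pool.Agent.Helper7.CM8

section mat

variable {S : Type} {q : S → S → ℚ} {r : S → ℚ}

/-- rational numbers whose squares add up to `1 / 4` have different squares -/
lemma sq_ne {b c : ℚ} (h : b ^ 2 + c ^ 2 = 1 / 4) : b ^ 2 ≠ c ^ 2 := by
  intro hbc
  have h1 : (4 * b) ^ 2 = 2 := by linear_combination 8 * h + 8 * hbc
  have h2 : Irrational √2 := irrational_sqrt_two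
  apply h2
  have h3 : ((4 * b : ℚ) : ℝ) ^ 2 = 2 := by exact_mod_cast h1
  refine ⟨|4 * b|, ?_⟩
  rw [Rat.cast_abs, ← h3, Real.sqrt_sq_eq_abs]

/-- the conclusion on the values -/
def Spr (q : S → S → ℚ) (r : S → ℚ) : Prop :=
  (∀ k, r k = 0 ∨ r k = 1) ∨ ∃ (i k : S) (B : ℚ), i ≠ k ∧ 1 + 2 * q i k ≠ 0 ∧
    ∀ m n, m ≠ n → ∀ ε δ : ℚ, (ε = 1 ∨ ε = -1) → (δ = 1 ∨ δ = -1) → ε * δ * q m n = q i k →
      (ε * r m + δ * r n = 0 ∨ ε * r m + δ * r n = B ∨ ε * r m + δ * r n = -B)

lemma core {x y z t : S} (hxz : x ≠ z) (hS : ∀ s, s = x ∨ s = y ∨ s = z ∨ s = t)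
    (hsym : ∀ i j, q i j = q j i) (hdiag : ∀ i, q i i = 1 / 2)
    (hr : ∀ m, r m = q m x + q m y + q m z + q m t)
    (hid : ∀ i j, q i x * q x j + q i y * q y j + q i z * q z j + q i t * q t j = q i j)
    (h0 : q x y = 0) : Spr q r := by
  obtain ⟨b, hb⟩ : ∃ b, b = q x z := ⟨_, rfl⟩
  obtain ⟨c, hc⟩ : ∃ c, c = q x t := ⟨_, rfl⟩
  obtain ⟨d, hd⟩ : ∃ d, d = q z t := ⟨_, rfl⟩
  obtain ⟨e, he⟩ : ∃ e, e = q y t := ⟨_, rfl⟩
  obtain ⟨f, hf⟩ : ∃ f, f = q y z := ⟨_, rfl⟩
  have hyx : q y x = 0 := by rw [hsym, h0]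
  have hzx : q z x = b := by rw [hsym, hb]
  have htx : q t x = c := by rw [hsym, hc]
  have htz : q t z = d := by rw [hsym, hd]
  have hty : q t y = e := by rw [hsym, he]
  have hzy : q z y = f := by rw [hsym, hf]
  have n1 := hid x x
  have n2 := hid y y
  have n3 := hid z z
  have n4 := hid t t
  have m1 := hid x y
  have m2 := hid x z
  have m3 := hid x t
  have m4 := hid y z
  have m5 := hid y t
  have m6 := hid z t
  simp only [hdiag, h0, hyx, hzx, htx, htz, hty, hzy, ← hb, ← hc, ← hd, ← he, ← hf]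
    at n1 n2 n3 n4 m1 m2 m3 m4 m5 m6
  have rx := hr x
  have ry := hr y
  have rz := hr z
  have rt := hr t
  simp only [hdiag, h0, hyx, hzx, htx, htz, hty, hzy, ← hb, ← hc, ← hd, ← he, ← hf]
    at rx ry rz rt
  have hd0 : d = 0 := by
    have : d ^ 2 = 0 := by linear_combination (n3 + n4 - n1 - n2) / 2
    exact pow_eq_zero_iff two_ne_zero |>.mp this
  subst hd0
  have hbc : b ^ 2 + c ^ 2 = 1 / 4 := by linear_combination n1
  have heb : e ^ 2 = b ^ 2 := by linear_combination (n2 - n3 + n4 - n1) / 2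
  have hfc : f ^ 2 = c ^ 2 := by linear_combination (n2 + n3 - n4 - n1) / 2
  have half : ∀ u : ℚ, u ^ 2 = 1 / 4 → u = 1 / 2 ∨ u = -(1 / 2) := by
    intro u hu
    have h1 : (u - 1 / 2) * (u + 1 / 2) = 0 := by linear_combination hu
    rcases mul_eq_zero.mp h1 with h | h
    · left; linear_combination h
    · right; linear_combination h
  by_cases hb0 : b = 0
  · left
    subst hb0
    have he0 : e = 0 := by
      have : e ^ 2 = 0 := by rw [heb]; ring
      exact pow_eq_zero_iff two_ne_zero |>.mp this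
    subst he0
    have hcv := half c (by linear_combination hbc)
    have hfv := half f (by linear_combination hfc + hbc)
    intro k
    rcases hS k with rfl | rfl | rfl | rfl
    · rw [rx]; rcases hcv with h | h <;> rw [h] <;> norm_num
    · rw [ry]; rcases hfv with h | h <;> rw [h] <;> norm_num
    · rw [rz]; rcases hfv with h | h <;> rw [h] <;> norm_num
    · rw [rt]; rcases hcv with h | h <;> rw [h] <;> norm_num
  by_cases hc0 : c = 0
  · left
    subst hc0
    have hf0 : f = 0 := by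
      have : f ^ 2 = 0 := by rw [hfc]; ring
      exact pow_eq_zero_iff two_ne_zero |>.mp this
    subst hf0
    have hbv := half b (by linear_combination hbc)
    have hev := half e (by linear_combination heb + hbc)
    intro k
    rcases hS k with rfl | rfl | rfl | rfl
    · rw [rx]; rcases hbv with h | h <;> rw [h] <;> norm_num
    · rw [ry]; rcases hev with h | h <;> rw [h] <;> norm_num
    · rw [rz]; rcases hbv with h | h <;> rw [h] <;> norm_num
    · rw [rt]; rcases hev with h | h <;> rw [h] <;> norm_num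
  right
  obtain ⟨η, hη, hfη⟩ : ∃ η : ℚ, (η = 1 ∨ η = -1) ∧ f = η * c := by
    rcases sq_eq_sq_iff_eq_or_eq_neg.mp hfc with h | h
    · exact ⟨1, Or.inl rfl, by rw [h, one_mul]⟩
    · exact ⟨-1, Or.inr rfl, by rw [h, neg_one_mul]⟩
  have heη : e = -(η * b) := by
    have h1 : c * (e + η * b) = 0 := by
      rw [hfη] at m1
      linear_combination m1
    have h2 := (mul_eq_zero.mp h1).resolve_left hc0
    linear_combination h2
  have hne := sq_ne hbc
  have hb1 : 1 + 2 * b ≠ 0 := by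
    intro h
    have h1 : b = -(1 / 2) := by linear_combination h / 2
    have h2 : c ^ 2 = 0 := by rw [h1] at hbc; linear_combination hbc
    exact hc0 (pow_eq_zero_iff two_ne_zero |>.mp h2)
  have hηη : η ^ 2 = 1 := by rcases hη with h | h <;> rw [h] <;> norm_num
  have hsq : ∀ m n ε δ, (ε = 1 ∨ ε = -1) → (δ = 1 ∨ δ = -1) → ε * δ * q m n = q x z →
      q m n ^ 2 = b ^ 2 := by
    intro m n ε δ h1 h2 h3
    rw [hb, ← h3]
    rcases h1 with h | h <;> rcases h2 with h' | h' <;> rw [h, h'] <;> ring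
  have hb20 : b ^ 2 ≠ 0 := pow_ne_zero _ hb0
  have hcb : c ^ 2 ≠ b ^ 2 := fun h => hne h.symm
  have hfb : f ^ 2 ≠ b ^ 2 := fun h => hne (by rw [← h, hfc])
  refine ⟨x, z, 1 + 2 * b + (1 + η) * c, hxz, by rw [← hb]; exact hb1, ?_⟩
  have hxzv : ∀ ε δ : ℚ, (ε = 1 ∨ ε = -1) → (δ = 1 ∨ δ = -1) → ε * δ * b = b →
      (ε * r x + δ * r z = 0 ∨ ε * r x + δ * r z = 1 + 2 * b + (1 + η) * c ∨
        ε * r x + δ * r z = -(1 + 2 * b + (1 + η) * c)) := by
    intro ε δ h1 h2 h3
    have h4 : ε * δ = 1 := mul_right_cancel₀ hb0 (by rw [h3, one_mul])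
    rw [rx, rz, hfη]
    rcases h1 with h | h <;> rcases h2 with h' | h' <;> rw [h, h'] at h4 ⊢
    · right; left; ring
    · norm_num at h4
    · norm_num at h4
    · right; right; ring
  have hytv : ∀ ε δ : ℚ, (ε = 1 ∨ ε = -1) → (δ = 1 ∨ δ = -1) → ε * δ * e = b →
      (ε * r y + δ * r t = 0 ∨ ε * r y + δ * r t = 1 + 2 * b + (1 + η) * c ∨
        ε * r y + δ * r t = -(1 + 2 * b + (1 + η) * c)) := by
    intro ε δ h1 h2 h3
    have h4 : ε * δ * η = -1 := by
      rw [heη] at h3
      have h5 : -(ε * δ * η) * b = 1 * b := by rw [one_mul]; linear_combination h3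
      have := mul_right_cancel₀ hb0 h5
      linear_combination -this
    rw [ry, rt, hfη, heη]
    rcases h1 with h | h <;> rcases h2 with h' | h' <;> rcases hη with h'' | h'' <;>
      rw [h, h', h''] at h4 ⊢
    · norm_num at h4
    · right; left; ring
    · left; ring
    · norm_num at h4
    · left; ring
    · norm_num at h4
    · norm_num at h4
    · right; right; ring
  intro m n hmn ε δ h1 h2 h3
  have h5 := hsq m n ε δ h1 h2 h3
  rw [← hb] at h3
  have hswap : ∀ u v : S, (ε * r u + δ * r v = δ * r v + ε * r u) := fun u v => add_comm _ _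
  have hz2 : (0 : ℚ) ^ 2 ≠ b ^ 2 := fun h => hb20 (by rw [← h]; norm_num)
  rcases hS m with rfl | rfl | rfl | rfl <;> rcases hS n with rfl | rfl | rfl | rfl
  · exact absurd rfl hmn
  · rw [h0] at h5; exact absurd h5 hz2
  · rw [← hb] at h3; exact hxzv ε δ h1 h2 h3
  · rw [← hc] at h5; exact absurd h5 hcb
  · rw [hyx] at h5; exact absurd h5 hz2
  · exact absurd rfl hmn
  · rw [← hf] at h5; exact absurd h5 hfb
  · rw [← he] at h3; exact hytv ε δ h1 h2 h3
  · rw [hzx] at h3
    rw [hswap]; exact hxzv δ ε h2 h1 (by rw [mul_comm δ ε]; exact h3)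
  · rw [hzy] at h5; exact absurd h5 hfb
  · exact absurd rfl hmn
  · rw [← hd] at h5; exact absurd h5 hz2
  · rw [htx] at h5; exact absurd h5 hcb
  · rw [hty] at h3
    rw [hswap]; exact hytv δ ε h2 h1 (by rw [mul_comm δ ε]; exact h3)
  · rw [htz] at h5; exact absurd h5 hz2
  · exact absurd rfl hmn

/-- symmetric idempotents with diagonal entries `1 / 2` -/
theorem mat4 {x y z t : S} (hxy : x ≠ y) (hxz : x ≠ z) (hxt : x ≠ t)
    (hS : ∀ s, s = x ∨ s = y ∨ s = z ∨ s = t)
    (hsym : ∀ i j, q i j = q j i) (hdiag : ∀ i, q i i = 1 / 2)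
    (hr : ∀ m, r m = q m x + q m y + q m z + q m t)
    (hid : ∀ i j, q i x * q x j + q i y * q y j + q i z * q z j + q i t * q t j = q i j) :
    Spr q r := by
  by_cases h1 : q x y = 0
  · exact core hxz hS hsym hdiag hr hid h1
  by_cases h2 : q x z = 0
  · refine core (x := x) (y := z) (z := t) (t := y) hxt (fun s => ?_) hsym hdiag (fun m => ?_)
      (fun i j => ?_) h2
    · rcases hS s with h | h | h | h
      · exact Or.inl h
      · exact Or.inr (Or.inr (Or.inr h))
      · exact Or.inr (Or.inl h)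
      · exact Or.inr (Or.inr (Or.inl h))
    · rw [hr]; ring
    · rw [← hid i j]; ring
  by_cases h3 : q x t = 0
  · refine core (x := x) (y := t) (z := y) (t := z) hxy (fun s => ?_) hsym hdiag (fun m => ?_)
      (fun i j => ?_) h3
    · rcases hS s with h | h | h | h
      · exact Or.inl h
      · exact Or.inr (Or.inr (Or.inl h))
      · exact Or.inr (Or.inr (Or.inr h))
      · exact Or.inr (Or.inl h)
    · rw [hr]; ring
    · rw [← hid i j]; ring
  exfalso
  obtain ⟨a, ha⟩ : ∃ a, a = q x y := ⟨_, rfl⟩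
  obtain ⟨b, hb⟩ : ∃ b, b = q x z := ⟨_, rfl⟩
  obtain ⟨c, hc⟩ : ∃ c, c = q x t := ⟨_, rfl⟩
  obtain ⟨d, hd⟩ : ∃ d, d = q z t := ⟨_, rfl⟩
  obtain ⟨e, he⟩ : ∃ e, e = q y t := ⟨_, rfl⟩
  obtain ⟨f, hf⟩ : ∃ f, f = q y z := ⟨_, rfl⟩
  rw [← ha] at h1
  rw [← hb] at h2
  rw [← hc] at h3
  have hzx : q z x = b := by rw [hsym, hb]
  have htz : q t z = d := by rw [hsym, hd]
  have hzy : q z y = f := by rw [hsym, hf]
  have m2 := hid x z
  have m3 := hid x t
  have m6 := hid z t
  simp only [hdiag, hzx, htz, hzy, ← ha, ← hb, ← hc, ← hd, ← he, ← hf]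
    at m2 m3 m6
  have k2 : a * f + c * d = 0 := by linear_combination m2
  have k3 : a * e + b * d = 0 := by linear_combination m3
  have k6 : b * c + f * e = 0 := by linear_combination m6
  have h4 : b * c * (a ^ 2 + d ^ 2) = 0 := by
    linear_combination a ^ 2 * k6 - (a * e) * k2 + c * d * k3
  rcases mul_eq_zero.mp h4 with h | h
  · rcases mul_eq_zero.mp h with h | h
    · exact h2 h
    · exact h3 h
  · have h5 : a ^ 2 = 0 := by nlinarith [sq_nonneg a, sq_nonneg d]
    exact h1 (pow_eq_zero_iff two_ne_zero |>.mp h5)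

end mat

end Pool.Agent.Helper7.CM8
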