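import Pool.Agent.Helper8.T1.AlmIrr
import Pool.Agent.Helper7.CM8.Mat

/-!
Stable subspaces of the space of odd functions for eight places.
-/

set_option autoImplicit false
set_option linter.unusedSectionVars false

namespace Pool.Agent.Helper7.CM8

open Module Pool.Agent.Helper8.T1

section gen

variable {E : Type} [Fintype E] [DecidableEq E] {c : E → E}
  (hcc : ∀ s, c (c s) = s) (hne : ∀ s, c s ≠ s) {Γ : Type*} (a : Γ → Equiv.Perm E)
  (ha : ∀ g, ∃ g', ∀ t, a g' (a g t) = t) (hac : ∀ g s, a g (c s) = c (a g s))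
  (htr : ∀ s t, ∃ g, a g s = t)

include hcc hne ha hac htr in
/-- the orthogonal complement of a stable space of dimension at least `g - 1` -/
lemma orth_line' (N : Submodule ℚ (E → ℚ)) (hN : StabS a N)
    (hodd : ∀ z ∈ N, ∀ s, z (c s) = - z s) (h2 : Fintype.card E ≤ 2 * finrank ℚ N + 2) :
    ∃ f ∈ orthS c N, (∀ z ∈ orthS c N, ∃ q : ℚ, z = q • f) ∧ ∀ s t, f s ^ 2 = f t ^ 2 := by
  have h3 := finrank_orthS hcc hne N hodd
  obtain ⟨f, hf, hall⟩ := oneD_of_finrank (orthS c N) (by omega)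
  exact ⟨f, hf, hall, line_sq a htr fun g => hall _ (orthS_stab a ha hac N hN g f hf)⟩

include hcc hne ha hac htr in
/-- stable spaces of dimension at least `g - 1` -/
theorem small_big (N : Submodule ℚ (E → ℚ)) (hN : StabS a N)
    (hodd : ∀ z ∈ N, ∀ s, z (c s) = - z s) (h1 : ¬ OneD N)
    (h2 : Fintype.card E ≤ 2 * finrank ℚ N + 2) :
    ∃ (s t : E) (ε : ℚ), (ε = 1 ∨ ε = -1) ∧ eV c s + ε • eV c t ∈ N ∧
      eV c s + ε • eV c t ≠ 0 := by
  classical
  obtain ⟨f, hf, hall, hsq⟩ := orth_line' hcc hne a ha hac htr N hN hodd h2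
  -- odd vectors orthogonal to `f` are in `N`
  have hmem : ∀ v : E → ℚ, (∀ s, v (c s) = - v s) → ∑ t, v t * f t = 0 → v ∈ N := by
    intro v hv hvf
    let l : (E → ℚ) →ₗ[ℚ] ℚ := ∑ t, v t • LinearMap.proj t
    have hl : ∀ w, l w = ∑ t, v t * w t := by
      intro w
      simp only [l, LinearMap.sum_apply, LinearMap.smul_apply, LinearMap.proj_apply, smul_eq_mul]
    obtain ⟨k, hk, hk2⟩ := rep_exists N l
    have h2 : v - k ∈ orthS c N := by
      refine ⟨fun s => ?_, fun w hw => ?_⟩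
      · rw [Pi.sub_apply, Pi.sub_apply, hv, hodd k hk]; ring
      · simp only [Pi.sub_apply, sub_mul, Finset.sum_sub_distrib]
        rw [hk2 w hw, hl, sub_self]
    obtain ⟨q, hq⟩ := hall _ h2
    have h3 : ∑ t, (v - k) t * f t = 0 := by
      have h4 : ∑ t, k t * f t = 0 := by
        have h5 := hf.2 k hk
        rw [← h5]
        exact Finset.sum_congr rfl fun t _ => mul_comm _ _
      simp only [Pi.sub_apply, sub_mul, Finset.sum_sub_distrib]
      rw [hvf, h4, sub_zero]
    have h4 : q * ∑ t, f t * f t = 0 := by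
      rw [← h3, hq, Finset.mul_sum]
      refine Finset.sum_congr rfl fun t _ => ?_
      rw [Pi.smul_apply, smul_eq_mul]; ring
    have h5 : v - k = 0 := by
      rcases mul_eq_zero.mp h4 with h | h
      · rw [hq, h, zero_smul]
      · have h6 := (Finset.sum_eq_zero_iff_of_nonneg (fun t _ => mul_self_nonneg _)).mp h
        have h7 : f = 0 := funext fun t => mul_self_eq_zero.mp (h6 t (Finset.mem_univ _))
        rw [hq, h7, smul_zero]
    rw [sub_eq_zero.mp h5]
    exact hk
  -- there are two pairs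
  obtain ⟨s, t, hst⟩ : ∃ s t, DP c s t := by
    by_contra hcon
    push Not at hcon
    apply h1
    by_cases hE : Nonempty E
    · obtain ⟨s⟩ := hE
      refine oneD_of N s fun t => ?_
      rcases dp_cases c hcc s t with h | h | h
      · exact ⟨1, fun z hz => by rw [h, one_mul]⟩
      · exact ⟨-1, fun z hz => by rw [h, hodd z hz, neg_one_mul]⟩
      · exact absurd h (hcon s t)
    · exact ⟨0, N.zero_mem, fun z _ => ⟨0, funext fun t => absurd ⟨t⟩ hE⟩⟩
  have hts := hst.symm' c hcc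
  have key : ∀ ε : ℚ, f s + ε * f t = 0 → eV c s + ε • eV c t ∈ N := by
    intro ε hε
    refine hmem _ (fun u => ?_) ?_
    · rw [Pi.add_apply, Pi.add_apply, Pi.smul_apply, Pi.smul_apply, eV_odd hcc hne s,
        eV_odd hcc hne t, smul_neg]
      ring
    · simp only [Pi.add_apply, Pi.smul_apply, smul_eq_mul, add_mul, mul_assoc,
        Finset.sum_add_distrib]
      rw [← Finset.mul_sum, sum_eV_mul hcc hne s f hf.1, sum_eV_mul hcc hne t f hf.1]
      linear_combination 2 * hε
  have hne0 : ∀ ε : ℚ, eV c s + ε • eV c t ≠ 0 := by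
    intro ε h
    have h3 := congrFun h s
    rw [Pi.add_apply, Pi.smul_apply, eV_self c hne, eV_dp c hcc hts] at h3
    simp at h3
  rcases sq_eq_sq_iff_eq_or_eq_neg.mp (hsq s t) with h | h
  · exact ⟨s, t, -1, Or.inr rfl, key (-1) (by rw [h]; ring), hne0 _⟩
  · exact ⟨s, t, 1, Or.inl rfl, key 1 (by rw [h]; ring), hne0 _⟩

/-- representing vectors -/
lemma rep_fam (N : Submodule ℚ (E → ℚ)) : ∃ k : E → E → ℚ, (∀ s, k s ∈ N) ∧
    (∀ s, ∀ z ∈ N, ∑ t, k s t * z t = z s) ∧ (∀ s t, k s t = k t s) ∧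
    ∑ s, k s s = finrank ℚ N := by
  classical
  have hk : ∀ s : E, ∃ k ∈ N, ∀ z ∈ N, ∑ t, k t * z t = z s := fun s =>
    rep_exists N (LinearMap.proj s)
  choose k hkN hk using hk
  have hsym : ∀ s t, k s t = k t s := by
    intro s t
    rw [← hk s (k t) (hkN t), ← hk t (k s) (hkN s)]
    exact Finset.sum_congr rfl fun u _ => mul_comm _ _
  refine ⟨k, hkN, hk, hsym, ?_⟩
  let P : (E → ℚ) →ₗ[ℚ] (E → ℚ) := Matrix.toLin' (Matrix.of k)
  have hP : ∀ z s, P z s = ∑ t, k s t * z t := fun z s => by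
    simp only [P, Matrix.toLin'_apply]
    rfl
  have hPz : ∀ z, P z = ∑ t, z t • k t := by
    intro z
    funext s
    rw [hP, Finset.sum_apply]
    refine Finset.sum_congr rfl fun t _ => ?_
    rw [Pi.smul_apply, smul_eq_mul, hsym s t, mul_comm]
  have hproj : LinearMap.IsProj N P := by
    refine ⟨fun z => ?_, fun z hz => ?_⟩
    · rw [hPz]
      exact N.sum_mem fun t _ => N.smul_mem _ (hkN t)
    · funext s
      rw [hP, hk s z hz]
  have h1 := hproj.trace
  rw [← h1, Matrix.trace_toLin'_eq]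
  rfl

variable {S : Type} [Fintype S] {φ : S → E}
  (hT : Function.Bijective (Sum.elim φ fun s => c (φ s)))

include hT in
lemma sgn_ex (u : E) : ∃ (m : S) (ε : ℚ), (ε = 1 ∧ u = φ m) ∨ (ε = -1 ∧ u = c (φ m)) := by
  obtain ⟨x, hx⟩ := hT.2 u
  rcases x with m | m
  · exact ⟨m, 1, Or.inl ⟨rfl, hx.symm⟩⟩
  · exact ⟨m, -1, Or.inr ⟨rfl, hx.symm⟩⟩

include hT in
lemma sum_type (f : E → ℚ) : ∑ u, f u = ∑ s, (f (φ s) + f (c (φ s))) := by
  rw [← (Equiv.ofBijective _ hT).sum_comp f, Fintype.sum_sum_type, Finset.sum_add_distrib]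
  rfl

include hcc hne ha hac htr hT in
/-- stable planes of odd functions for eight places -/
theorem plane_sparse (hcard : Fintype.card E = 8) (N : Submodule ℚ (E → ℚ)) (hN : StabS a N)
    (hodd : ∀ z ∈ N, ∀ s, z (c s) = - z s) (h2 : finrank ℚ N = 2) :
    ∃ w ∈ N, w ≠ 0 ∧ ∃ b : ℚ, b ≠ 0 ∧ ∀ g, ∑ s, w (a g (φ s)) = -b ∨
      ∑ s, w (a g (φ s)) = 0 ∨ ∑ s, w (a g (φ s)) = b := by
  classical
  obtain ⟨v, hvN, hv, hsym, htrace⟩ := rep_fam N
  have hequ : ∀ g s t, v (a g s) (a g t) = v s t := by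
    intro g s t
    have h1 : (fun t => v (a g s) (a g t)) = v s := by
      refine uniq_rep (hN g _ (hvN _)) (hvN s) fun z hz => ?_
      rw [hv s z hz]
      obtain ⟨g', hg'⟩ := ha g
      have h2 := hv (a g s) _ (hN g' z hz)
      rw [hg'] at h2
      rw [← h2, ← Equiv.sum_comp (a g) (fun u => v (a g s) u * z (a g' u))]
      refine Finset.sum_congr rfl fun u _ => ?_
      rw [hg']
    exact congrFun h1 t
  have hodd2 : ∀ s t, v s (c t) = - v s t := fun s t => hodd _ (hvN s) t
  have hodd1 : ∀ s t, v (c s) t = - v s t := by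
    intro s t
    rw [hsym, hodd2, hsym]
  have hdiag : ∀ s, v s s = 1 / 4 := by
    intro s
    have h3 : ∀ t, v t t = v s s := by
      intro t
      obtain ⟨g, hg⟩ := htr s t
      rw [← hg, hequ]
    rw [Finset.sum_congr rfl fun t _ => h3 t, Finset.sum_const, Finset.card_univ, hcard, h2] at htrace
    push_cast at htrace
    rw [nsmul_eq_mul] at htrace
    push_cast at htrace
    linear_combination htrace / 8
  -- the matrix
  obtain ⟨q, hq⟩ : ∃ q : S → S → ℚ, ∀ i j, q i j = 2 * v (φ i) (φ j) := ⟨_, fun _ _ => rfl⟩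
  have hcS : Fintype.card S = 4 := by
    have h3 := Fintype.card_of_bijective hT
    rw [Fintype.card_sum, hcard] at h3
    omega
  let e := Fintype.equivFinOfCardEq hcS
  have hsum : ∀ f : S → ℚ, ∑ s, f s = f (e.symm 0) + f (e.symm 1) + f (e.symm 2) + f (e.symm 3) := by
    intro f
    rw [← e.symm.sum_comp f, Fin.sum_univ_four]
  have hcov : ∀ s, s = e.symm 0 ∨ s = e.symm 1 ∨ s = e.symm 2 ∨ s = e.symm 3 := by
    intro s
    have h3 : ∀ i : Fin 4, i = 0 ∨ i = 1 ∨ i = 2 ∨ i = 3 := by decide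
    rcases h3 (e s) with h | h | h | h
    · left; rw [← h, Equiv.symm_apply_apply]
    · right; left; rw [← h, Equiv.symm_apply_apply]
    · right; right; left; rw [← h, Equiv.symm_apply_apply]
    · right; right; right; rw [← h, Equiv.symm_apply_apply]
  have hne' : ∀ i j : Fin 4, i ≠ j → e.symm i ≠ e.symm j := fun i j h h' =>
    h (e.symm.injective h')
  have hid : ∀ i j, ∑ k, q i k * q k j = q i j := by
    intro i j
    have h3 := hv (φ i) (v (φ j)) (hvN _)
    rw [sum_type hT] at h3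
    rw [hq i j, hsym (φ i) (φ j), ← h3, Finset.mul_sum]
    refine Finset.sum_congr rfl fun k _ => ?_
    rw [hq, hq, hodd2, hodd2, hsym (φ k) (φ j)]
    ring
  have hM := mat4 (q := q) (r := fun m => ∑ j, q m j) (hne' 0 1 (by decide)) (hne' 0 2 (by decide))
    (hne' 0 3 (by decide)) hcov (fun i j => by rw [hq, hq, hsym])
    (fun i => by rw [hq, hdiag]; norm_num) (fun m => hsum _)
    (fun i j => by rw [← hid i j, hsum])
  have hval : ∀ (g : Γ) (u : E), ∃ g' , ∀ t, v u (a g t) = v (a g' u) t := by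
    intro g u
    obtain ⟨g', hg'⟩ := ha g
    refine ⟨g', fun t => ?_⟩
    rw [← hequ g' u (a g t), hg']
  -- values
  have hvr : ∀ (g : Γ) (i : S), ∃ (m : S) (ε : ℚ), (ε = 1 ∨ ε = -1) ∧
      ((ε = 1 ∧ a g (φ i) = φ m) ∨ (ε = -1 ∧ a g (φ i) = c (φ m))) ∧
      (∀ t, v (a g (φ i)) t = ε * v (φ m) t) ∧ (∀ t, v t (a g (φ i)) = ε * v t (φ m)) := by
    intro g i
    obtain ⟨m, ε, h⟩ := sgn_ex hT (a g (φ i))
    refine ⟨m, ε, ?_, h, fun t => ?_, fun t => ?_⟩
    · rcases h with h | h
      · exact Or.inl h.1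
      · exact Or.inr h.1
    · rcases h with ⟨h3, h4⟩ | ⟨h3, h4⟩
      · rw [h4, h3, one_mul]
      · rw [h4, h3, hodd1, neg_one_mul]
    · rcases h with ⟨h3, h4⟩ | ⟨h3, h4⟩
      · rw [h4, h3, one_mul]
      · rw [h4, h3, hodd2, neg_one_mul]
  have hsumv : ∀ m, ∑ s, v (φ m) (φ s) = (∑ s, q m s) / 2 := by
    intro m
    rw [Finset.sum_div]
    refine Finset.sum_congr rfl fun s _ => ?_
    rw [hq]; ring
  rcases hM with h3 | ⟨i, k, B, hik, hne1, hall⟩
  · refine ⟨v (φ (e.symm 0)), hvN _, fun h => ?_, 1 / 2, by norm_num, fun g => ?_⟩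
    · have h4 := congrFun h (φ (e.symm 0))
      rw [hdiag] at h4
      norm_num at h4
    · obtain ⟨g', hg'⟩ := hval g (φ (e.symm 0))
      obtain ⟨m, ε, hε, -, hm, -⟩ := hvr g' (e.symm 0)
      have h4 : ∑ s, v (φ (e.symm 0)) (a g (φ s)) = ε * ((∑ s, q m s) / 2) := by
        rw [← hsumv, Finset.mul_sum]
        refine Finset.sum_congr rfl fun s _ => ?_
        rw [hg', hm]
      rw [h4]
      beta_reduce at h3
      rcases h3 m with h5 | h5 <;> rw [h5] <;> rcases hε with h6 | h6 <;> rw [h6] <;> norm_num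
  · refine ⟨v (φ i) + v (φ k), N.add_mem (hvN _) (hvN _), fun h => ?_,
      if B = 0 then 1 else B / 2, ?_, fun g => ?_⟩
    · have h4 := congrFun h (φ i)
      rw [Pi.add_apply, hdiag, hsym] at h4
      apply hne1
      rw [hq]
      rw [Pi.zero_apply] at h4
      linear_combination 4 * h4
    · split_ifs with hB
      · exact one_ne_zero
      · intro h; apply hB; linear_combination 2 * h
    · obtain ⟨g', hg'⟩ := ha g
      have hg'' : ∀ u t, v u (a g t) = v (a g' u) t := fun u t => by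
        rw [← hequ g' u (a g t), hg']
      obtain ⟨m, ε, hε, hm0, hm, hm'⟩ := hvr g' i
      obtain ⟨n, δ, hδ, hn0, hn, hn'⟩ := hvr g' k
      have hmn : m ≠ n := by
        rintro rfl
        have h5 : a g' (φ i) = a g' (φ k) ∨ a g' (φ i) = a g' (c (φ k)) := by
          rcases hm0 with ⟨_, h6⟩ | ⟨_, h6⟩ <;> rcases hn0 with ⟨_, h7⟩ | ⟨_, h7⟩
          · left; rw [h6, h7]
          · right; rw [hac, h6, h7, hcc]
          · right; rw [hac, h6, h7]
          · left; rw [h6, h7]
        rcases h5 with h5 | h5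
        · have h6 := (a g').injective h5
          have h7 : (Sum.inl i : S ⊕ S) = Sum.inl k := hT.1 h6
          exact hik (Sum.inl_injective h7)
        · have h6 := (a g').injective h5
          have h7 : (Sum.inl i : S ⊕ S) = Sum.inr k := hT.1 h6
          exact absurd h7 (by simp)
      have hqq : ε * δ * q m n = q i k := by
        rw [hq, hq]
        have h5 := hequ g' (φ i) (φ k)
        rw [hm, hn'] at h5
        rw [← h5]; ring
      have h4 : ∑ s, (v (φ i) + v (φ k)) (a g (φ s)) =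
          (ε * (∑ s, q m s) + δ * ∑ s, q n s) / 2 := by
        have e1 : ∑ s, (v (φ i) + v (φ k)) (a g (φ s)) =
            ε * ∑ s, v (φ m) (φ s) + δ * ∑ s, v (φ n) (φ s) := by
          rw [Finset.mul_sum, Finset.mul_sum, ← Finset.sum_add_distrib]
          refine Finset.sum_congr rfl fun s _ => ?_
          rw [Pi.add_apply, hg'', hg'', hm, hn]
        rw [e1, hsumv, hsumv]; ring
      rw [h4]
      have h5 := hall m n hmn ε δ hε hδ hqq
      beta_reduce at h5
      split_ifs with hB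
      · rw [hB] at h5
        right; left
        rcases h5 with h5 | h5 | h5 <;> rw [h5] <;> norm_num
      · rcases h5 with h5 | h5 | h5 <;> rw [h5]
        · right; left; norm_num
        · right; right; rfl
        · left; ring

end gen

end Pool.Agent.Helper7.CM8
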