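import Pool.Agent.Helper8.T1.BalT2
import Pool.Agent.Helper7.CM8.Oct
import Pool.Agent.Helper7.CM8.Defs

/-!
Galois closed relations between the exponents of CM types are balanced, for CM fields which are
good or of degree eight.
-/

set_option autoImplicit false
set_option linter.unusedSectionVars false

namespace Pool.Agent.Helper7.CM8

open GAM Pool.Agent.GPC NumberField Module Pool.Agent.Helper8.T1
open scoped ComplexConjugate

/-- odd functions on two places -/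
lemma oneD_two {K : Type} [Field K] [NumberField K] {c : K →+* K} (hc : CMF K c)
    (h2 : finrank ℚ K = 2) (N : Submodule ℚ ((K →+* ℂ) → ℚ))
    (hodd : ∀ z ∈ N, ∀ s, z (cE c s) = - z s) : OneD N := by
  classical
  have s0 : K →+* ℂ := Classical.choice (inferInstance : Nonempty (K →+* ℂ))
  refine oneD_of N s0 fun t => ?_
  rcases dp_cases (cE c) (cE_cE hc) s0 t with h | h | h
  · exact ⟨1, fun z hz => by rw [h, one_mul]⟩
  · exact ⟨-1, fun z hz => by rw [h, hodd z hz, neg_one_mul]⟩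
  · exfalso
    have h3 : ({s0, cE c s0, t} : Finset (K →+* ℂ)).card = 3 := by
      rw [Finset.card_eq_three]
      exact ⟨s0, cE c s0, t, fun h' => cE_ne hc s0 h'.symm, h.1,
        fun h' => h.2 (by rw [← h', cE_cE hc]), rfl⟩
    have h4 := Finset.card_le_univ ({s0, cE c s0, t} : Finset (K →+* ℂ))
    rw [h3, NumberField.Embeddings.card, h2] at h4
    omega

/-- stable spaces of odd functions for CM fields of degree eight -/
theorem oct_sparse {K : Type} [Field K] [NumberField K] {c : K →+* K} (hc : CMF K c)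
    {S : Type} [Fintype S] {φ : S → K →+* ℂ} (hT : CMT K c φ) (h8 : finrank ℚ K = 8)
    (N : Submodule ℚ ((K →+* ℂ) → ℚ)) (hN : StabS (aK K) N)
    (hodd : ∀ z ∈ N, ∀ s, z (cE c s) = - z s) (h1 : ¬ OneD N) :
    ∃ w ∈ N, w ≠ 0 ∧ ∃ b : ℚ, b ≠ 0 ∧ ∀ τ, ∑ s, w (aK K τ (φ s)) = -b ∨
      ∑ s, w (aK K τ (φ s)) = 0 ∨ ∑ s, w (aK K τ (φ s)) = b := by
  classical
  have hinv : ∀ g : ℂ ≃+* ℂ, ∃ g', ∀ t, aK K g' (aK K g t) = t := fun g =>
    ⟨g⁻¹, fun t => by rw [← Equiv.Perm.mul_apply, ← map_mul, inv_mul_cancel, map_one]; rfl⟩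
  have hcard : Fintype.card (K →+* ℂ) = 8 := by rw [NumberField.Embeddings.card, h8]
  have h2 : 2 ≤ finrank ℚ N := by
    by_contra h
    exact h1 (oneD_of_finrank N (by omega))
  rcases Nat.lt_or_ge 2 (finrank ℚ N) with h3 | h3
  · obtain ⟨s, t, ε, hε, hmem, hne⟩ := small_big (cE_cE hc) (cE_ne hc) (aK K) hinv (aK_cE c)
      aK_tr N hN hodd h1 (by omega)
    refine ⟨_, hmem, hne, 2, two_ne_zero, fun τ => ?_⟩
    have h5 : ∑ s', (eV (cE c) s + ε • eV (cE c) t) (aK K τ (φ s')) =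
        ∑ s', eV (cE c) (aK K τ⁻¹ s) (φ s') + ε * ∑ s', eV (cE c) (aK K τ⁻¹ t) (φ s') := by
      rw [Finset.mul_sum, ← Finset.sum_add_distrib]
      refine Finset.sum_congr rfl fun s' _ => ?_
      rw [Pi.add_apply, Pi.smul_apply, smul_eq_mul, eV_aK, eV_aK]
    rcases sum_eV hc hT (aK K τ⁻¹ s) with h6 | h6 <;>
      rcases sum_eV hc hT (aK K τ⁻¹ t) with h7 | h7 <;>
      rcases hε with h8 | h8 <;> rw [h5, h6, h7, h8] <;> norm_num
  · exact plane_sparse (cE_cE hc) (cE_ne hc) (aK K) hinv (aK_cE c) aK_tr hT hcard N hN hodd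
      (le_antisymm h3 h2)

/-- stable spaces of odd functions for good CM fields which are not abelian -/
theorem good_sparse {K : Type} [Field K] [NumberField K] {c : K →+* K} (hc : CMF K c)
    {S : Type} [Fintype S] {φ : S → K →+* ℂ} (hT : CMT K c φ) (hgood : IsGoodCM K)
    (hna : ¬ IsAbelianGalois ℚ K)
    (N : Submodule ℚ ((K →+* ℂ) → ℚ)) (hN : StabS (aK K) N)
    (hodd : ∀ z ∈ N, ∀ s, z (cE c s) = - z s) (h1 : ¬ OneD N) :
    ∃ w ∈ N, w ≠ 0 ∧ ∃ b : ℚ, b ≠ 0 ∧ ∀ τ, ∑ s, w (aK K τ (φ s)) = -b ∨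
      ∑ s, w (aK K τ (φ s)) = 0 ∨ ∑ s, w (aK K τ (φ s)) = b := by
  classical
  obtain ⟨-, hsm⟩ := good_props hc (hgood.resolve_left hna)
  obtain ⟨s, t, ε, hε, hmem, hne⟩ := (hsm N hN hodd).resolve_left h1
  refine ⟨_, hmem, hne, 2, two_ne_zero, fun τ => ?_⟩
  have h5 : ∑ s', (eV (cE c) s + ε • eV (cE c) t) (aK K τ (φ s')) =
      ∑ s', eV (cE c) (aK K τ⁻¹ s) (φ s') + ε * ∑ s', eV (cE c) (aK K τ⁻¹ t) (φ s') := by
    rw [Finset.mul_sum, ← Finset.sum_add_distrib]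
    refine Finset.sum_congr rfl fun s' _ => ?_
    rw [Pi.add_apply, Pi.smul_apply, smul_eq_mul, eV_aK, eV_aK]
  rcases sum_eV hc hT (aK K τ⁻¹ s) with h6 | h6 <;>
    rcases sum_eV hc hT (aK K τ⁻¹ t) with h7 | h7 <;>
    rcases hε with h8 | h8 <;> rw [h5, h6, h7, h8] <;> norm_num

section main

variable {I : Type} [Fintype I] {K : I → Type}
    [∀ i, Field (K i)] [∀ i, NumberField (K i)] {c : ∀ i, K i →+* K i} {S : I → Type}
    [∀ i, Fintype (S i)] [∀ i, DecidableEq (S i)] {φ : ∀ i, S i → K i →+* ℂ}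
    {A : Derivation ℚ ℂ ℂ → ∀ i, S i → ℂ}

/-- a minimal stable space which does not vanish at two fields with no common constituents is
a line -/
lemma oneD_of_noCommon (hCM : ∀ i, CMF (K i) (c i))
    {W : Submodule ℚ ((Σ i, (K i →+* ℂ)) → ℚ)} (hW : StabS (aE K) W)
    (hodd : ∀ w ∈ W, ∀ i (σ : K i →+* ℂ), w ⟨i, σ.comp (c i)⟩ = -w ⟨i, σ⟩) (i j : I)
    (hinji : ∀ w ∈ W, (∀ s, w ⟨i, s⟩ = 0) → w = 0)
    (hinjj : ∀ w ∈ W, (∀ s, w ⟨j, s⟩ = 0) → w = 0) (hno : NoCommon (K i) (K j)) : OneD W := by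
  classical
  let f : ((Σ i, (K i →+* ℂ)) → ℚ) →ₗ[ℚ] ((K i →+* ℂ) → ℚ) × ((K j →+* ℂ) → ℚ) :=
    (resI K i).prod (resI K j)
  have h1 := hno (W.map f) (by
    rintro _ ⟨w, hw, rfl⟩
    refine ⟨fun s => ?_, fun s => ?_⟩
    · rw [← cE_eq (hCM i)]; exact hodd w hw i s
    · rw [← cE_eq (hCM j)]; exact hodd w hw j s) (by
    rintro τ _ ⟨w, hw, rfl⟩
    exact ⟨_, hW τ w hw, rfl⟩) (by
    rintro _ ⟨w, hw, rfl⟩
    constructor
    · intro h
      have h2 := hinji w hw fun s => congrFun h s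
      rw [h2]; rfl
    · intro h
      have h2 := hinjj w hw fun s => congrFun h s
      rw [h2]; rfl)
  have h2 : Function.Injective (f.domRestrict W) := by
    rw [← LinearMap.ker_eq_bot, LinearMap.ker_eq_bot']
    rintro ⟨w, hw⟩ h
    have h3 : resI K i w = 0 := congrArg Prod.fst h
    exact Subtype.ext (hinji w hw fun s => congrFun h3 s)
  have h3 : finrank ℚ W ≤ 1 := by
    have h4 := LinearMap.finrank_range_of_inj h2
    rw [← h4]
    have h5 : LinearMap.range (f.domRestrict W) = W.map f := by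
      rw [LinearMap.range_domRestrict]
    rw [h5]
    exact h1
  exact oneD_of_finrank W h3

/-- a minimal space does not live at two good fields with different closures -/
lemma pair_field (hCM : ∀ i, CMF (K i) (c i))
    {W : Submodule ℚ ((Σ i, (K i →+* ℂ)) → ℚ)} (hW : StabS (aE K) W)
    (hodd : ∀ w ∈ W, ∀ i (σ : K i →+* ℂ), w ⟨i, σ.comp (c i)⟩ = -w ⟨i, σ⟩)
    (h1 : ¬ OneD W) (i j : I) (hi : ¬ IsAbelianGalois ℚ (K i)) (hgi : IsGoodCM (K i))
    (hgj : IsGoodCM (K j))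
    (hdist : ¬ IsAbelianGalois ℚ (K i) → ¬ IsAbelianGalois ℚ (K j) →
      IntermediateField.normalClosure ℚ (K i) ℂ ≠ IntermediateField.normalClosure ℚ (K j) ℂ)
    (hinji : ∀ w ∈ W, (∀ s, w ⟨i, s⟩ = 0) → w = 0)
    (hinjj : ∀ w ∈ W, (∀ s, w ⟨j, s⟩ = 0) → w = 0) : False := by
  classical
  have hfaith : ∀ i, ¬ IsAbelianGalois ℚ (K i) → IsGoodCM (K i) →
      (∀ w ∈ W, (∀ s, w ⟨i, s⟩ = 0) → w = 0) →
      ∀ τ, (∀ z ∈ W.map (resI K i), ∀ t, z (aK (K i) τ t) = z t) → ∀ s, aK (K i) τ s = s := by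
    intro i hi hgi hinj τ hτ s
    obtain ⟨hsp, -⟩ := good_props (hCM i) (hgi.resolve_left hi)
    exact faith_gen (cE_cE (hCM i)) (aK (K i)) aK_tr hsp _ (res_stab hW i)
      (res_odd hodd i) (fun h => h1 (res_oneD i hinj h)) τ hτ s
  by_cases hj : IsAbelianGalois ℚ (K j)
  · -- commutators
    apply hi
    refine abelian_of_comm fun τ τ' s => ?_
    have h2 : ∀ w ∈ W, ∀ t, w (aE K τ (aE K τ' t)) = w (aE K τ' (aE K τ t)) := by
      intro w hw t
      have h3 : (fun t => w (aE K τ (aE K τ' t))) - (fun t => w (aE K τ' (aE K τ t))) = 0 := by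
        refine hinjj _ (W.sub_mem (hW τ' _ (hW τ w hw)) (hW τ _ (hW τ' w hw))) fun s => ?_
        rw [Pi.sub_apply, sub_eq_zero]
        show w ⟨j, aK (K j) τ (aK (K j) τ' s)⟩ = w ⟨j, aK (K j) τ' (aK (K j) τ s)⟩
        rw [comm_of_abelian hj]
      exact sub_eq_zero.mp (congrFun h3 t)
    have h4 := hfaith i hi hgi hinji ((τ * τ') * (τ' * τ)⁻¹) (by
      rintro _ ⟨w, hw, rfl⟩ t
      have h5 := h2 w hw ⟨i, aK (K i) (τ' * τ)⁻¹ t⟩
      show w ⟨i, aK (K i) ((τ * τ') * (τ' * τ)⁻¹) t⟩ = w ⟨i, t⟩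
      have e1 : aK (K i) ((τ * τ') * (τ' * τ)⁻¹) t =
          aK (K i) τ (aK (K i) τ' (aK (K i) (τ' * τ)⁻¹ t)) := by
        rw [map_mul, map_mul]; rfl
      have e2 : aK (K i) τ' (aK (K i) τ (aK (K i) (τ' * τ)⁻¹ t)) = t := by
        rw [← Equiv.Perm.mul_apply, ← Equiv.Perm.mul_apply, ← map_mul, ← map_mul,
          mul_inv_cancel, map_one]
        rfl
      rw [e1]
      refine h5.trans ?_
      show w ⟨i, aK (K i) τ' (aK (K i) τ (aK (K i) (τ' * τ)⁻¹ t))⟩ = w ⟨i, t⟩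
      rw [e2]) (aK (K i) (τ' * τ) s)
    rw [← Equiv.Perm.mul_apply, ← map_mul, inv_mul_cancel_right, map_mul, map_mul] at h4
    exact h4
  · refine hdist hi hj (closure_eq fun τ => ⟨fun h => ?_, fun h => ?_⟩)
    · refine hfaith j hj hgj hinjj τ ?_
      rintro _ ⟨w, hw, rfl⟩ t
      exact triv_of hW i hinji τ h w hw ⟨j, t⟩
    · refine hfaith i hi hgi hinji τ ?_
      rintro _ ⟨w, hw, rfl⟩ t
      exact triv_of hW j hinjj τ h w hw ⟨i, t⟩

/-- relations between exponents of CM types are balanced -/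
theorem balT3 (hL : St_ExpL) (hP : St_PsiK) (hIso : St_Iso) (hBal : St_Bal)
    (z : (Σ i, (K i →+* ℂ)) → ℤ)
    (hgood : ∀ i, IsGoodCM (K i) ∨ finrank ℚ (K i) = 8)
    (hpair : ∀ i j, i ≠ j → CMPair (K i) (K j))
    (hCM : ∀ i, CMF (K i) (c i)) (hT : ∀ i, CMT (K i) (c i) (φ i))
    (hE : ∀ δ i, IsExp δ (K i) (φ i) (A δ i))
    (hz : ∀ i (σ : K i →+* ℂ), z ⟨i, σ.comp (c i)⟩ = -z ⟨i, σ⟩)
    (hrel : ∀ (τ : ℂ ≃+* ℂ) (δ : Derivation ℚ ℂ ℂ),
      ∑ i, ∑ s, (z ⟨i, (τ : ℂ →+* ℂ).comp (φ i s)⟩ : ℂ) *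
        (2 * A δ i s - δ Real.pi / Real.pi) = 0) :
    ∑ i, ∑ s, z ⟨i, φ i s⟩ = 0 := by
  classical
  have hzR : (fun t => (z t : ℚ)) ∈ RelR K c φ A := by
    refine ⟨fun i σ => ?_, fun τ δ => ?_⟩
    · show ((z ⟨i, σ.comp (c i)⟩ : ℤ) : ℚ) = -((z ⟨i, σ⟩ : ℤ) : ℚ)
      rw [hz, Int.cast_neg]
    · rw [← hrel τ δ]
      refine Finset.sum_congr rfl fun i _ => Finset.sum_congr rfl fun s _ => ?_
      rw [Rat.cast_intCast]
  have hle : RelR K c φ A ≤ RelZ K c φ A := by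
    by_contra hcon
    obtain ⟨W, hW, hWR, hW0, hWZ, hmin⟩ := exists_min (aE_inv K) (RelR K c φ A)
      (RelZ K c φ A) (RelR_stab K c φ A) (RelZ_stab K c φ A) (fun z hz => hz.1) hcon
    have h1 := not_oneD hL hP hIso hCM hT hE hW hWR hW0 hWZ
    have hodd : ∀ w ∈ W, ∀ i (σ : K i →+* ℂ), w ⟨i, σ.comp (c i)⟩ = -w ⟨i, σ⟩ :=
      fun w hw => (hWR hw).1
    by_cases hab : ∃ i, ¬ IsAbelianGalois ℚ (K i) ∧ ¬ ∀ w ∈ W, ∀ s, w ⟨i, s⟩ = 0
    · obtain ⟨i, hi, hi0⟩ := hab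
      have hinj := (van_or_inj hW hmin i).resolve_left hi0
      have hone : ∀ j, j ≠ i → ∀ w ∈ W, ∀ s, w ⟨j, s⟩ = 0 := by
        intro j hij
        rcases van_or_inj hW hmin j with h | h
        · exact h
        exfalso
        rcases hpair i j (Ne.symm hij) with ⟨h2, -⟩ | (h2 | h2) | h2 | ⟨h2, h3, h4⟩
        · exact hi h2
        · exact h1 (res_oneD i hinj (oneD_two (hCM i) h2 _ (res_odd hodd i)))
        · exact h1 (res_oneD j h (oneD_two (hCM j) h2 _ (res_odd hodd j)))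
        · exact h1 (oneD_of_noCommon hCM hW hodd i j hinj h h2)
        · exact pair_field hCM hW hodd h1 i j hi h2 h3 h4 hinj h
      have hsp : ∃ w ∈ W.map (resI K i), w ≠ 0 ∧ ∃ b : ℚ, b ≠ 0 ∧ ∀ τ,
          ∑ s, w (aK (K i) τ (φ i s)) = -b ∨ ∑ s, w (aK (K i) τ (φ i s)) = 0 ∨
          ∑ s, w (aK (K i) τ (φ i s)) = b := by
        rcases hgood i with h2 | h2
        · exact good_sparse (hCM i) (hT i) h2 hi _ (res_stab hW i) (res_odd hodd i)
            (fun h => h1 (res_oneD i hinj h))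
        · exact oct_sparse (hCM i) (hT i) h2 _ (res_stab hW i) (res_odd hodd i)
            (fun h => h1 (res_oneD i hinj h))
      obtain ⟨_, ⟨w, hw, rfl⟩, hne, b, hb, hval⟩ := hsp
      have h3 := relZ_of hL hP hIso hCM hT hE (hWR hw) b hb fun τ => by
        have h4 : ellT K φ τ w = ∑ s', w ⟨i, aK (K i) τ (φ i s')⟩ := by
          unfold ellT
          rw [Finset.sum_eq_single i]
          · rfl
          · intro j _ hj
            exact Finset.sum_eq_zero fun s' _ => hone j hj w hw _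
          · intro h; exact absurd (Finset.mem_univ _) h
        rw [h4]
        exact hval τ
      have h4 : w ∈ W ⊓ RelZ K c φ A := ⟨hw, h3⟩
      rw [hWZ, Submodule.mem_bot] at h4
      apply hne
      rw [h4, map_zero]
    · push Not at hab
      apply hW0
      rw [eq_bot_iff]
      intro w hw
      rw [← hWZ]
      refine ⟨hw, hWR hw, fun τ => ?_⟩
      exact ab_bal hBal hCM hT hE (hWR (hW τ w hw)) fun i hi s => hab i hi _ (hW τ w hw) s
  have h1 := (hle hzR).2 1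
  have h2 : ((∑ i, ∑ s, z ⟨i, φ i s⟩ : ℤ) : ℚ) = 0 := by
    rw [← h1]
    push_cast
    rfl
  exact_mod_cast h2

end main

end Pool.Agent.Helper7.CM8
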