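import Pool.Agent.Helper8.T1.GoodCM
import Pool.Agent.Helper7.CM8.Defs

/-!
Abelian varieties all of whose simple factors of CM type have CM fields which are good or of degree
eight.
-/

namespace Pool.Agent.GPC

/-- For every simple factor `B` of `X` with complex multiplication by a field `K` with
`[K : ℚ] = 2 g`, `g = dim B`: `K` is abelian over `ℚ`, or `g` is a prime number or `4`, or the
`Aut(ℂ)`-stable spaces of odd functions `Hom(K, ℂ) → ℚ` have dimension at most `1` or at least
`g - 1`; and for two such factors `B`, `B'` without non-zero homomorphisms `B → B'`, with fields `K`,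
`K'`: `K` and `K'` are abelian over `ℚ`, or one of them is quadratic, or the spaces of odd functions
on `Hom(K, ℂ)` and on `Hom(K', ℂ)` have no common constituents of dimension at least two, or `K` and
`K'` are good (`IsGoodCM`), with different normal closures in `ℂ` if both are not abelian. -/
structure AbVar.IsCMPairVar (X : AbVar) : Prop where
  good : ∀ B : AbVar, B.IsSimpleFactor X → ∀ (K : Type) [Field K] [NumberField K]
    (ρ : K → B.H1 → B.H1), B.HasCM K ρ → IsGoodCM K ∨ Module.finrank ℚ K = 8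
  pair : ∀ B B' : AbVar, B.IsSimpleFactor X → B'.IsSimpleFactor X →
    (∀ f, B.IsMor B' f → ∀ v, f v = 0) → ∀ (K K' : Type) [Field K] [NumberField K] [Field K']
    [NumberField K'] (ρ : K → B.H1 → B.H1) (ρ' : K' → B'.H1 → B'.H1), B.HasCM K ρ →
    B'.HasCM K' ρ' → CMPair K K'

/-- the previous condition is a special case -/
theorem AbVar.IsGoodCMVar.isCMPairVar {X : AbVar} (h : X.IsGoodCMVar) : X.IsCMPairVar where
  good B hB K _ _ ρ hρ := Or.inl (h.good B hB K ρ hρ)
  pair B B' hB hB' hf K K' _ _ _ _ ρ ρ' hρ hρ' := Or.inr (Or.inr (Or.inr ⟨h.good B hB K ρ hρ,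
    h.good B' hB' K' ρ' hρ', h.closure B B' hB hB' hf K K' ρ ρ' hρ hρ'⟩))

end Pool.Agent.GPC

namespace Pool.Agent.Helper7.CM8

open Pool.Agent.GPC Pool.Agent.Helper8.T1

/-- the conditions for the family of the simple factors -/
theorem pair_family {X : AbVar} (hX : X.IsCMPairVar) {I : Type} (A : I → AbVar) (K : I → Type)
    [∀ i, Field (K i)] [∀ i, NumberField (K i)] (T : Finset I)
    (hfac : ∀ i ∈ T, (A i).IsSimpleFactor X)
    (hA : ∀ i j, i ≠ j → ∀ f, (A i).IsMor (A j) f → ∀ v, f v = 0)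
    (hC : ∀ i ∈ T, IsCMType (A i) (K i)) :
    (∀ i ∈ T, IsGoodCM (K i) ∨ Module.finrank ℚ (K i) = 8) ∧
      ∀ i ∈ T, ∀ j ∈ T, i ≠ j → CMPair (K i) (K j) := by
  refine ⟨fun i hi => ?_, fun i hi j hj hij => ?_⟩
  · obtain ⟨ρ, hρ⟩ := hasCM_of_isCMType (hC i hi)
    exact hX.good (A i) (hfac i hi) (K i) ρ hρ
  · obtain ⟨ρ, hρ⟩ := hasCM_of_isCMType (hC i hi)
    obtain ⟨ρ', hρ'⟩ := hasCM_of_isCMType (hC j hj)
    exact hX.pair (A i) (A j) (hfac i hi) (hfac j hj) (hA i j hij) (K i) (K j) ρ ρ' hρ hρ'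

end Pool.Agent.Helper7.CM8
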